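import Pool.Agent.Work.MP_959bfa_wn.Interface

/-!
Block SORT of the weak nets project: sorting the points by first coordinate.
-/

namespace Wn

theorem SORT : stmt_SORT := by
  intro n P
  refine ⟨Tuple.sort (fun i => (P i).1), Tuple.monotone_sort (fun i => (P i).1), ?_⟩
  intro R
  refine Finset.card_bij (fun i _ => Tuple.sort (fun i => (P i).1) i) ?_ ?_ ?_
  · intro i hi
    have h := (mem_fl.1 hi).2
    exact mem_fl.2 ⟨Finset.mem_univ _, h⟩
  · intro i _ j _ hij
    exact (Tuple.sort (fun i => (P i).1)).injective hij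
  · intro j hj
    refine ⟨(Tuple.sort (fun i => (P i).1)).symm j, ?_, ?_⟩
    · have h := (mem_fl.1 hj).2
      refine mem_fl.2 ⟨Finset.mem_univ _, ?_⟩
      show In R (P (Tuple.sort (fun i => (P i).1) ((Tuple.sort (fun i => (P i).1)).symm j))).1
        (P (Tuple.sort (fun i => (P i).1) ((Tuple.sort (fun i => (P i).1)).symm j))).2
      rw [Equiv.apply_symm_apply]
      exact h
    · exact Equiv.apply_symm_apply _ _

end Wn
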